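import Pool.Agent.Helper81.AT.Defs
import Pool.Agent.Helper3.PX.Dt3
import Pool.Agent.Helper59.PX.Cnt2p
import Pool.Agent.Helper90.PX.Cnt24

/-!
Project AT (MP_b8862a_ag), block AT-C: the dimensions with few roots, `O(X^(2/3))`.
-/

open Finset PX

namespace AT

/-! ### The calculus of `TT` -/

theorem TT.mono {S T : Set ℕ} (h : TT T) (hST : ∀ n, 0 < n → n ∈ S → n ∈ T) : TT S := by
  classical
  obtain ⟨C, hC⟩ := h
  refine ⟨C, fun X => le_trans ?_ (hC X)⟩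
  have : PW.cn S X ≤ PW.cn T X := by
    unfold PW.cn
    refine card_le_card fun n hn => ?_
    rw [mem_filter, mem_Icc] at hn ⊢
    exact ⟨hn.1, hST n (by omega) hn.2⟩
  exact_mod_cast this

theorem TT.iUnion {ι : Type*} [Fintype ι] (S : ι → Set ℕ) (h : ∀ i, TT (S i)) : TT (⋃ i, S i) := by
  classical
  choose C hC using h
  refine ⟨∑ i, C i, fun X => ?_⟩
  have h1 : PW.cn (⋃ i, S i) X ≤ ∑ i, PW.cn (S i) X := by
    unfold PW.cn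
    refine le_trans (card_le_card (t := univ.biUnion fun i => (Icc 1 X).filter (· ∈ S i)) ?_) card_biUnion_le
    intro n hn
    rw [mem_filter] at hn
    obtain ⟨i, hi⟩ := Set.mem_iUnion.1 hn.2
    exact mem_biUnion.2 ⟨i, mem_univ i, mem_filter.2 ⟨hn.1, hi⟩⟩
  calc (PW.cn (⋃ i, S i) X : ℝ) ≤ ((∑ i, PW.cn (S i) X : ℕ) : ℝ) := by exact_mod_cast h1
    _ = ∑ i, (PW.cn (S i) X : ℝ) := by push_cast; rfl
    _ ≤ ∑ i, C i * (X : ℝ) ^ (2 / 3 : ℝ) := sum_le_sum fun i _ => hC i X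
    _ = _ := by rw [sum_mul]

theorem TT.union {S T : Set ℕ} (h : TT S) (h' : TT T) : TT (S ∪ T) := by
  rw [Set.union_eq_iUnion]
  refine TT.iUnion _ fun b => ?_
  cases b
  · exact h'
  · exact h

theorem _root_.PX.Half.tt {S : Set ℕ} (h : Half S) : TT S := by
  obtain ⟨C, hC⟩ := h
  refine ⟨max C 0, fun X => ?_⟩
  rcases Nat.eq_zero_or_pos X with rfl | hX
  · have h0 : PW.cn S 0 = 0 := by
      unfold PW.cn
      simp
    rw [h0]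
    simp
  · have hX1 : (1 : ℝ) ≤ X := by exact_mod_cast hX
    calc (PW.cn S X : ℝ) ≤ C * (X : ℝ) ^ (1 / 2 : ℝ) := hC X
      _ ≤ max C 0 * (X : ℝ) ^ (1 / 2 : ℝ) := mul_le_mul_of_nonneg_right (le_max_left _ _) (by positivity)
      _ ≤ max C 0 * (X : ℝ) ^ (2 / 3 : ℝ) :=
        mul_le_mul_of_nonneg_left (Real.rpow_le_rpow_of_exponent_le hX1 (by norm_num)) (le_max_right _ _)

/-- a set coded by finite sets of vectors -/
theorem tt_of_code {r : ℕ} {S : Set ℕ} {Q : ℕ} (hQ : 0 < Q) (R : (Fin r → ℕ) → Prop) (g : (Fin r → ℕ) → ℕ)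
    (h : ∀ n ∈ S, ∃ b, R b ∧ n * Q = g b) {C : ℝ}
    (hC : ∀ (Y : ℕ) (B : Finset (Fin r → ℕ)), (∀ b ∈ B, R b ∧ g b ≤ Y) → (B.card : ℝ) ≤ C * (Y : ℝ) ^ (2 / 3 : ℝ)) :
    TT S := by
  classical
  refine ⟨C * (Q : ℝ) ^ (2 / 3 : ℝ), fun X => ?_⟩
  choose! β hβ using h
  have h1 : PW.cn S X ≤ (((Icc 1 X).filter (· ∈ S)).image β).card := by
    unfold PW.cn
    refine le_of_eq (Eq.trans ?_ (card_image_of_injOn (s := (Icc 1 X).filter (· ∈ S)) (f := β) ?_).symm)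
    · congr
    · intro n hn n' hn' he
      have h2 := (hβ n (mem_filter.1 hn).2).2
      have h3 := (hβ n' (mem_filter.1 hn').2).2
      have he' : β n = β n' := he
      rw [he', ← h3] at h2
      exact Nat.eq_of_mul_eq_mul_right hQ h2
  have h2 := hC (Q * X) (((Icc 1 X).filter (· ∈ S)).image β) (by
    intro b hb
    obtain ⟨n, hn, rfl⟩ := mem_image.1 hb
    obtain ⟨hn1, hn2⟩ := mem_filter.1 hn
    have h3 := hβ n hn2
    refine ⟨h3.1, ?_⟩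
    rw [← h3.2, mul_comm]
    exact Nat.mul_le_mul_left _ (mem_Icc.1 hn1).2)
  calc (PW.cn S X : ℝ) ≤ ((((Icc 1 X).filter (· ∈ S)).image β).card : ℝ) := by exact_mod_cast h1
    _ ≤ C * ((Q * X : ℕ) : ℝ) ^ (2 / 3 : ℝ) := h2
    _ = C * (Q : ℝ) ^ (2 / 3 : ℝ) * (X : ℝ) ^ (2 / 3 : ℝ) := by
      rw [Nat.cast_mul, Real.mul_rpow (Nat.cast_nonneg _) (Nat.cast_nonneg _)]
      ring

/-- rank two: one coroot with both coefficients positive -/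
theorem rank2' {N : ℕ} (f : Fin N → Fin 2 → ℕ) (b : Fin 2 → ℕ) (hf : ∀ a, 0 < ∑ j, f a j) (hb : ∀ j, 0 < b j)
    (hk : ∀ j k, 1 ≤ k → k ≤ 2 → ∃ a, f a j = 1 ∧ (∀ i, f a i ≤ 1) ∧ ∑ i, f a i = k) (q : Fin 2) :
    b q * ∏ i, b i ≤ ∏ a, ∑ j, f a j * b j := by
  classical
  obtain ⟨F, hF⟩ : ∃ F : Fin N → ℕ, ∀ a, F a = ∑ j, f a j * b j := ⟨_, fun _ => rfl⟩
  simp only [← hF]
  have hF1 : ∀ a, 1 ≤ F a := fun a => by rw [hF]; exact one_le_F3 f b hf hb a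
  obtain ⟨G, hG⟩ : ∃ G : Finset (Fin N), G = univ.filter (fun a => ∑ i, f a i = 1) := ⟨_, rfl⟩
  have hT : ∏ j, b j ≤ ∏ a ∈ G, F a := by
    have h1 := prod_b_le3 f b hb 1 fun j => by
      obtain ⟨a, h1, _, h2⟩ := hk j 1 le_rfl (by norm_num)
      exact ⟨a, h1, h2⟩
    rw [pow_one] at h1
    rw [hG]
    simp only [hF]
    exact h1
  obtain ⟨a, ha, _, ha2⟩ := hk q 2 (by norm_num) le_rfl
  have h1 : a ∉ G := by
    rw [hG, mem_filter, ha2]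
    simp
  have h6 : ∏ a ∈ insert a G, F a ≤ ∏ a, F a :=
    prod_le_prod_of_subset_of_one_le' (subset_univ _) fun a _ _ => hF1 a
  rw [prod_insert h1] at h6
  have hu : b q ≤ F a := by rw [hF]; exact b_le_F3 f b (by omega)
  exact (Nat.mul_le_mul hu hT).trans h6

/-- rank two, fixed coefficients -/
def S2' {N : ℕ} (f : Fin N → Fin 2 → ℕ) : Set ℕ := {n | ∃ (b : Fin 2 → ℕ),
  (∀ a, 0 < ∑ j, f a j) ∧ (∀ j, 0 < b j) ∧
  (∀ j k, 1 ≤ k → k ≤ 2 → ∃ a, f a j = 1 ∧ (∀ i, f a i ≤ 1) ∧ ∑ i, f a i = k) ∧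
  n * ∏ a, ∑ j, f a j = ∏ a, ∑ j, f a j * b j}

theorem s2_tt {N : ℕ} (f : Fin N → Fin 2 → ℕ) : TT (S2' f) := by
  classical
  by_cases hf : ∀ a, 0 < ∑ j, f a j
  swap
  · refine ⟨0, fun X => ?_⟩
    have h1 : PW.cn (S2' f) X = 0 := by
      unfold PW.cn
      rw [card_eq_zero, filter_eq_empty_iff]
      rintro n _ ⟨b, hf', _⟩
      exact hf hf'
    rw [h1, Nat.cast_zero, zero_mul]
  have hQ : 0 < ∏ a, ∑ j, f a j := prod_pos fun a _ => hf a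
  obtain ⟨C, hC⟩ := PX.cnt2'
  refine tt_of_code hQ (fun b => (∀ i, 1 ≤ b i) ∧ ∃ q, (∀ i, b i ≤ b q) ∧
    b q * ∏ i, b i ≤ ∏ a, ∑ j, f a j * b j) (fun b => ∏ a, ∑ j, f a j * b j) ?_ (C := C) ?_
  · rintro n ⟨b, _, hb, hk, he⟩
    obtain ⟨q, _, hq⟩ := exists_max_image (univ : Finset (Fin 2)) b ⟨0, mem_univ _⟩
    exact ⟨b, ⟨hb, q, fun i => hq i (mem_univ i), rank2' f b hf hb hk q⟩, he⟩
  · intro Y B hB
    refine hC Y B fun b hb => ?_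
    obtain ⟨⟨h1, q, h2, h3⟩, h4⟩ := hB b hb
    exact ⟨h1, q, h2, h3.trans h4⟩

/-- Block AT-C. -/
theorem dt4_tt (M : ℕ) : TT {n | Dt4 M n} := by
  classical
  refine TT.mono (TT.union (PX.dt3_half_of PX.cnt2 PX.cnt3 PX.cnt4 M).tt
    (TT.iUnion (ι := Σ (N : Fin (M + 1)), (Fin N → Fin 2 → Fin (4 * M + 1)))
      (fun u => S2' (fun a j => (u.2 a j : ℕ))) fun u => s2_tt _)) ?_
  rintro n - ⟨r, N, f, b, h2r, hrM, hNM, hf4, hf, hb, hk, he⟩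
  rcases Nat.lt_or_ge r 3 with hr | hr
  · obtain rfl : r = 2 := by omega
    refine Or.inr (Set.mem_iUnion.2 ⟨⟨⟨N, by omega⟩, fun a j => ⟨f a j, by
      have := hf4 a j
      omega⟩⟩, ?_⟩)
    exact ⟨b, hf, hb, hk, he⟩
  · exact Or.inl ⟨r, N, f, b, h2r, hrM, hNM, hf4, hf, hb, hk, Or.inl hr, he⟩

end AT
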